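import Pool.Agent.V7H95.Bgt.Sharp2
import Pool.Agent.V7H95.Bgt.OConst

/-
The budget-constrained random graph process and minimum degree `k` at its hitting time: for every
`k ≥ 1` and `ε > 0`, a budget of `(k/2 + ε) n` edges suffices for success with probability bounded
away from zero. The definitions are in `Pool/Agent/V7H95/Bgt/Defs.lean`.
-/

namespace Pool.Agent.Results.MP_59e60d_pr.SharpBudgetH95

open Filter Topology Pool.Agent.V7H95.Bgt

set_option autoImplicit false

/-- Let `k ≥ 1`. There is a number `o` with `k/2 < o < k` such that the number of the edges which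
are among the first `k` edges at one of their ends is `(o + o(1)) n` with probability tending to
`1` (so `o` is the constant `o_k` of Cooper and Frieze); and, for every `ε > 0`, there are `c > 0`
and rules of Builder such that he never has more than `(k/2 + ε) n` edges, and at the hitting time
of minimum degree `k` his graph has minimum degree at least `k` with probability at least `c`, for
all large `n`. -/
theorem result (k : ℕ) (hk : 1 ≤ k) :
    ∃ o : ℝ, (k : ℝ) / 2 < o ∧ o < k ∧
      (∀ ε > 0, Tendsto (fun n : ℕ =>
        prob n (fun σ => |((near k σ).card : ℝ) - o * n| < ε * n)) atTop (𝓝 1)) ∧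
      ∀ ε > 0, ∃ c > 0, ∃ S : (n : ℕ) → Rule n,
        (∀ (n : ℕ) (σ : Ordering n) (t : ℕ),
          ((built (S n) σ t).card : ℝ) ≤ ((k : ℝ) / 2 + ε) * n) ∧
        ∀ᶠ n : ℕ in atTop, c ≤ prob n (fun σ => ∀ v : Fin n,
          k ≤ deg (built (S n) σ (tau k σ)) v) :=
  ⟨oConst k, oConst_gt hk, oConst_lt hk, fun _ hε => near_lln_prob k hε, fun _ hε => sharp hk hε⟩

end Pool.Agent.Results.MP_59e60d_pr.SharpBudgetH95
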